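import Mathlib

/-! Definitions for central hyperplane arrangements in `ℂ^l`. -/

namespace Pool.Agent.Lib.MP_8050b7_ag

/-- A central hyperplane arrangement in `ℂ^l`: a finite set of linear hyperplanes. -/
def IsArrangement {l : ℕ} (A : Set (Submodule ℂ (Fin l → ℂ))) : Prop :=
  A.Finite ∧ ∀ H ∈ A, ∃ α : (Fin l → ℂ) →ₗ[ℂ] ℂ, α ≠ 0 ∧ H = LinearMap.ker α

/-- The intersection lattice `L(A)`: all intersections of subfamilies of `A`
(the empty subfamily gives the whole space). -/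
def flats {l : ℕ} (A : Set (Submodule ℂ (Fin l → ℂ))) : Set (Submodule ℂ (Fin l → ℂ)) :=
  {X | ∃ B : Set (Submodule ℂ (Fin l → ℂ)), B ⊆ A ∧ X = sInf B}

/-- The rank of a flat: its codimension. -/
noncomputable def rk {l : ℕ} (X : Submodule ℂ (Fin l → ℂ)) : ℕ := l - Module.finrank ℂ X

/-- The meet of `X` and `Y` in `L(A)` (ordered by reverse inclusion): the smallest flat
containing both. The join is the intersection `X ⊓ Y`. -/
def latMeet {l : ℕ} (A : Set (Submodule ℂ (Fin l → ℂ))) (X Y : Submodule ℂ (Fin l → ℂ)) :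
    Submodule ℂ (Fin l → ℂ) :=
  sInf {Z | Z ∈ flats A ∧ X ≤ Z ∧ Y ≤ Z}

/-- `X` is a modular element of `L(A)`. -/
def IsModular {l : ℕ} (A : Set (Submodule ℂ (Fin l → ℂ))) (X : Submodule ℂ (Fin l → ℂ)) : Prop :=
  X ∈ flats A ∧ ∀ Y ∈ flats A, rk X + rk Y = rk (X ⊓ Y) + rk (latMeet A X Y)

/-- `L(A)` has a maximal chain consisting of modular elements. -/
def IsSupersolvable {l : ℕ} (A : Set (Submodule ℂ (Fin l → ℂ))) : Prop :=
  ∃ C : Set (Submodule ℂ (Fin l → ℂ)), (∀ X ∈ C, IsModular A X) ∧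
    (∀ X ∈ C, ∀ Y ∈ C, X ≤ Y ∨ Y ≤ X) ∧
    ∀ Z ∈ flats A, (∀ X ∈ C, X ≤ Z ∨ Z ≤ X) → Z ∈ C

/-- The ideal `I(X)` of a linear subspace. -/
noncomputable def flatIdeal {l : ℕ} (X : Submodule ℂ (Fin l → ℂ)) :
    Ideal (MvPolynomial (Fin l) ℂ) :=
  MvPolynomial.vanishingIdeal ℂ (X : Set (Fin l → ℂ))

/-- The ideal `J(A)` of the singular locus: the intersection of `I(X)` over the
codimension-two flats. -/
noncomputable def singIdeal {l : ℕ} (A : Set (Submodule ℂ (Fin l → ℂ))) :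
    Ideal (MvPolynomial (Fin l) ℂ) :=
  ⨅ X ∈ {X | X ∈ flats A ∧ rk X = 2}, flatIdeal X

/-- The symbolic power `J(A)^{(m)}`: the intersection of `I(X)^m` over the
codimension-two flats. -/
noncomputable def symbPower {l : ℕ} (A : Set (Submodule ℂ (Fin l → ℂ))) (m : ℕ) :
    Ideal (MvPolynomial (Fin l) ℂ) :=
  ⨅ X ∈ {X | X ∈ flats A ∧ rk X = 2}, flatIdeal X ^ m

end Pool.Agent.Lib.MP_8050b7_ag
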