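import Pool.Agent.Lib.MP_8050b7_ag.Mem

/-! A linear functional that kills the square of the ideal but not `pF`. -/

namespace Pool.Agent.Lib.MP_8050b7_ag
open MvPolynomial

/-- points `(x, y, z)` with integer weights -/
def cert : List (ℤ × ℤ × ℤ × ℤ) :=
  [(2, -1, 3, 7168),
   (0, 1, -2, -970080),
   (0, 1, 2, 970080),
   (0, 2, -1, 1549056),
   (0, 2, 1, -1549056),
   (1, 0, -2, 12647040),
   (1, 0, 2, -12647040),
   (2, 0, -1, -10361856),
   (2, 0, 1, 10361856),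
   (1, -1, -2, -1878016),
   (1, -1, 2, 1878016),
   (1, 1, -2, -5433344),
   (1, 1, 2, 5433344),
   (2, -2, -1, -31744),
   (2, -2, 1, 31744),
   (2, 2, -1, -490496),
   (2, 2, 1, 490496),
   (0, 1, -3, -26637),
   (0, 1, 3, 26637),
   (0, 3, -1, -4257),
   (0, 3, 1, 4257),
   (1, 0, -3, -62868),
   (1, 0, 3, 62868),
   (3, 0, -1, 70812),
   (3, 0, 1, -70812),
   (1, -1, -3, 25376),
   (1, -1, 3, -25376),
   (1, 1, -3, 23584),
   (1, 1, 3, -23584),
   (1, 2, -3, 7168),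
   (1, 2, 3, -7168),
   (2, -1, -3, -7168)]

def dG : Fin 5 → ℕ := ![6, 6, 7, 7, 7]

def chk (i j : Fin 5) (p q r : ℕ) : ℤ :=
  (cert.map fun c => c.2.2.2 * (c.1 ^ p * c.2.1 ^ q * c.2.2.1 ^ r *
    (pG i c.1 c.2.1 c.2.2.1 * pG j c.1 c.2.1 c.2.2.1))).sum

lemma chk_zero : ∀ i j : Fin 5, ∀ p < 4, ∀ q < 4, ∀ r < 4,
    p + q + r + (dG i + dG j) = 15 → chk i j p q r = 0 := by decide +kernel

lemma chk_F : (cert.map fun c => c.2.2.2 * pF c.1 c.2.1 c.2.2.1).sum ≠ 0 := by decide +kernel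

def qv (c : ℤ × ℤ × ℤ × ℤ) : Fin 3 → ℂ := ![(c.1 : ℂ), (c.2.1 : ℂ), (c.2.2.1 : ℂ)]

noncomputable def ev0 : R →ₗ[ℂ] ℂ :=
  (cert.map fun c => (c.2.2.2 : ℂ) • (aeval (qv c) : R →ₐ[ℂ] ℂ).toLinearMap).sum

lemma ev0_apply (h : R) :
    ev0 h = (cert.map fun c => (c.2.2.2 : ℂ) * aeval (qv c) h).sum := by
  unfold ev0
  induction cert with
  | nil => simp
  | cons c l ih => simp only [List.map_cons, List.sum_cons, LinearMap.add_apply, ih]; simp

noncomputable def lam : R →ₗ[ℂ] ℂ := ev0 ∘ₗ homogeneousComponent 15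

lemma hX (i : Fin 3) : (X i : R).IsHomogeneous 1 := isHomogeneous_X ℂ i
lemma h2 : (2 : R).IsHomogeneous 0 := isHomogeneous_C (Fin 3) (2 : ℂ)
lemma h3 : (3 : R).IsHomogeneous 0 := isHomogeneous_C (Fin 3) (3 : ℂ)
lemma h4 : (4 : R).IsHomogeneous 0 := isHomogeneous_C (Fin 3) (4 : ℂ)

lemma hA : (pA (X 0) (X 1) (X 2) : R).IsHomogeneous 2 := ((hX 0).pow 2).sub ((hX 2).pow 2)
lemma hB : (pB (X 0) (X 1) (X 2) : R).IsHomogeneous 2 := ((hX 1).pow 2).sub ((hX 2).pow 2)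
lemma hr : (pr3 (X 0) (X 1) (X 2) : R).IsHomogeneous 3 :=
  (((hX 0).sub (h2.mul (hX 1))).mul ((hX 0).add (h2.mul (hX 1)))).mul ((h2.mul (hX 0)).sub (hX 1))
lemma hg : (pg (X 0) (X 1) (X 2) : R).IsHomogeneous 5 := ((hX 2).mul hA).mul hB
lemma hG (i : Fin 5) : (pG i (X 0) (X 1) (X 2) : R).IsHomogeneous (dG i) := by
  fin_cases i
  · exact hg.mul (hX 0)
  · exact hg.mul (hX 1)
  · exact ((((hX 0).mul (hX 1)).mul ((hX 0).sub (hX 1))).mul ((hX 0).add (hX 1))).mul hr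
  · exact (((hX 2).mul (hX 1)).mul hr).mul hB
  · exact (((hX 2).mul (hX 0)).mul hr).mul hA
lemma hc : (pc (X 0) (X 1) (X 2) : R).IsHomogeneous 7 :=
  (hr.mul (((hA.sub hB).pow 2).add (((hX 2).pow 2).mul (hA.add hB)))).add
    (((h3.mul (hX 2)).mul hg).mul ((h2.mul (hX 0)).add (h4.mul (hX 1))))
lemma hF : (pF (X 0) (X 1) (X 2) : R).IsHomogeneous 15 := (hg.mul hr).mul hc

lemma aeval_G (c : ℤ × ℤ × ℤ × ℤ) (i : Fin 5) :
    aeval (qv c) (pG i (X 0) (X 1) (X 2) : R) = ((pG i c.1 c.2.1 c.2.2.1 : ℤ) : ℂ) := by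
  fin_cases i <;> simp [pG, pg, pA, pB, pr3, qv, map_ofNat]

lemma aeval_F (c : ℤ × ℤ × ℤ × ℤ) :
    aeval (qv c) (pF (X 0) (X 1) (X 2) : R) = ((pF c.1 c.2.1 c.2.2.1 : ℤ) : ℂ) := by
  simp [pF, pc, pg, pA, pB, pr3, qv, map_ofNat]

lemma lam_F : lam (pF (X 0) (X 1) (X 2)) ≠ 0 := by
  have : lam (pF (X 0) (X 1) (X 2)) =
      (((cert.map fun c => c.2.2.2 * pF c.1 c.2.1 c.2.2.1).sum : ℤ) : ℂ) := by
    rw [lam, LinearMap.comp_apply, homogeneousComponent_eq_self hF, ev0_apply]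
    simp only [aeval_F]
    push_cast
    simp [Function.comp_def]
  rw [this]
  exact_mod_cast chk_F

lemma dG_ge : ∀ i j : Fin 5, 12 ≤ dG i + dG j := by decide

lemma lam_GG (i j : Fin 5) (H : R) :
    lam (H * (pG i (X 0) (X 1) (X 2) * pG j (X 0) (X 1) (X 2))) = 0 := by
  induction H using MvPolynomial.induction_on' with
  | add p q hp hq => rw [add_mul, map_add, hp, hq, add_zero]
  | monomial m t =>
    have hm : (monomial m t : R).IsHomogeneous (m 0 + m 1 + m 2) :=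
      isHomogeneous_monomial _ (by simp [Finsupp.degree_eq_sum, Fin.sum_univ_three])
    have hh := hm.mul ((hG i).mul (hG j))
    rw [lam, LinearMap.comp_apply, homogeneousComponent_of_mem hh]
    split_ifs with h15
    · have hd : 12 ≤ dG i + dG j := dG_ge i j
      have := chk_zero i j (m 0) (by omega) (m 1) (by omega) (m 2) (by omega) h15.symm
      have e : ev0 (monomial m t * (pG i (X 0) (X 1) (X 2) * pG j (X 0) (X 1) (X 2))) =
          t * ((chk i j (m 0) (m 1) (m 2) : ℤ) : ℂ) := by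
        rw [ev0_apply, chk]
        simp only [map_mul, aeval_G, aeval_monomial]
        push_cast
        rw [← List.sum_map_mul_left, List.map_map]
        congr 1
        apply List.map_congr_left
        intro c _
        rw [Finsupp.prod_fintype _ _ (by simp)]
        simp [Fin.prod_univ_three, qv]
        ring
      rw [e, this]; simp
    · simp

theorem lam_mul {p q : R} (hp : ∀ i j, i ≠ j → V i j p) (hq : ∀ i j, i ≠ j → V i j q) :
    lam (p * q) = 0 := by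
  obtain ⟨u, rfl⟩ := gen p hp
  obtain ⟨v, rfl⟩ := gen q hq
  rw [Finset.sum_mul_sum, map_sum]
  refine Finset.sum_eq_zero fun i _ => ?_
  rw [map_sum]
  refine Finset.sum_eq_zero fun j _ => ?_
  rw [mul_mul_mul_comm]
  exact lam_GG i j _

end Pool.Agent.Lib.MP_8050b7_ag
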