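import Mathlib

-- part Pool.Agent.Lib.MP_8050b7_ag.Gen
section

/-! Generators of the ideal of the singular points of the 12-line arrangement. -/

namespace Pool.Agent.Lib.MP_8050b7_ag
open MvPolynomial

abbrev R := MvPolynomial (Fin 3) ℂ

/-- coefficient vectors of the twelve lines -/
def a : Fin 12 → Fin 3 → ℤ :=
  ![![1, 0, 0], ![0, 1, 0], ![1, -1, 0], ![1, 1, 0], ![1, -2, 0], ![1, 2, 0], ![2, -1, 0],
    ![0, 0, 1], ![1, 0, -1], ![1, 0, 1], ![0, 1, -1], ![0, 1, 1]]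

/-- cross product of two coefficient vectors -/
def cr (i j : Fin 12) : Fin 3 → ℤ :=
  ![a i 1 * a j 2 - a i 2 * a j 1, a i 2 * a j 0 - a i 0 * a j 2, a i 0 * a j 1 - a i 1 * a j 0]

def D (i j k : Fin 12) : ℤ := a k 0 * cr i j 0 + a k 1 * cr i j 1 + a k 2 * cr i j 2

noncomputable def lin (i : Fin 12) : R :=
  C (a i 0 : ℂ) * X 0 + C (a i 1 : ℂ) * X 1 + C (a i 2 : ℂ) * X 2

def pt (i j : Fin 12) (t : ℂ) : Fin 3 → ℂ := fun k => t * (cr i j k : ℂ)

def V (i j : Fin 12) (h : R) : Prop := ∀ t : ℂ, t ≠ 0 → eval (pt i j t) h = 0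

noncomputable def pr (l : List (Fin 12)) : R := (l.map lin).prod

lemma eval_lin (i j k : Fin 12) (t : ℂ) : eval (pt i j t) (lin k) = t * (D i j k : ℂ) := by
  simp only [lin, pt, D, map_add, map_mul, eval_C, eval_X]
  push_cast
  ring

lemma D_left (i j : Fin 12) : D i j i = 0 := by
  simp only [D, cr]; simp; ring

lemma D_right (i j : Fin 12) : D i j j = 0 := by
  simp only [D, cr]; simp; ring

lemma eval_pr_zero {i j : Fin 12} {l : List (Fin 12)} (h : ∃ m ∈ l, D i j m = 0) (t : ℂ) :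
    eval (pt i j t) (pr l) = 0 := by
  obtain ⟨m, hm, h0⟩ := h
  have : lin m ∣ pr l := List.dvd_prod (List.mem_map.2 ⟨m, hm, rfl⟩)
  obtain ⟨u, hu⟩ := this
  rw [hu, map_mul, eval_lin, h0]; simp

lemma sub_aeval_mem (I : Ideal R) (σ : Fin 3 → R) (hσ : ∀ i, X i - σ i ∈ I) (h : R) :
    h - aeval σ h ∈ I := by
  induction h using MvPolynomial.induction_on with
  | C c => simp
  | add p q hp hq =>
    have := I.add_mem hp hq
    convert this using 1
    simp only [map_add]; ring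
  | mul_X p i hp =>
    have := I.add_mem (I.mul_mem_right (X i) hp) (I.mul_mem_left (aeval σ p) (hσ i))
    convert this using 1
    simp only [map_mul, aeval_X]; ring

lemma base {i j : Fin 12} (hne : ∃ k, cr i j k ≠ 0) {h : R} (hV : V i j h) :
    ∃ u v : R, h = lin i * u + lin j * v := by
  obtain ⟨k, hk⟩ := hne
  have hkC : (cr i j k : ℂ) ≠ 0 := by exact_mod_cast hk
  set s : ℂ := (cr i j k : ℂ)⁻¹ with hs
  have hs1 : s * (cr i j k : ℂ) = 1 := inv_mul_cancel₀ hkC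
  let σ : Fin 3 → R := fun m => C (s * (cr i j m : ℂ)) * X k
  have h0 : aeval σ h = 0 := by
    have h1 : X k * aeval σ h = 0 := by
      apply MvPolynomial.funext
      intro w
      rw [map_mul, eval_X, map_zero]
      by_cases hw : w k = 0
      · rw [hw, zero_mul]
      · have e : eval w (aeval σ h) = eval (pt i j (s * w k)) h := by
          rw [← coe_aeval_eq_eval, ← coe_aeval_eq_eval]
          change aeval w (aeval σ h) = aeval (pt i j (s * w k)) h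
          rw [comp_aeval_apply]
          congr 2
          funext m
          simp [σ, pt]; ring
        rw [e, hV _ (mul_ne_zero (inv_ne_zero hkC) hw), mul_zero]
    exact (mul_eq_zero.1 h1).resolve_left (X_ne_zero k)
  have hmem : h - aeval σ h ∈ Ideal.span {lin i, lin j} := by
    apply sub_aeval_mem
    intro m
    rw [Ideal.mem_span_pair]
    have hC : (C s : R) * C (cr i j k : ℂ) = 1 := by rw [← map_mul, hs1, map_one]
    have c0 : (C (cr i j 0 : ℂ) : R) = C (a i 1 : ℂ) * C (a j 2 : ℂ) - C (a i 2 : ℂ) * C (a j 1 : ℂ) := by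
      simp [cr]
    have c1 : (C (cr i j 1 : ℂ) : R) = C (a i 2 : ℂ) * C (a j 0 : ℂ) - C (a i 0 : ℂ) * C (a j 2 : ℂ) := by
      simp [cr]
    have c2 : (C (cr i j 2 : ℂ) : R) = C (a i 0 : ℂ) * C (a j 1 : ℂ) - C (a i 1 : ℂ) * C (a j 0 : ℂ) := by
      simp [cr]
    simp only [σ, map_mul, lin]
    -- X m * cr k - X k * cr m is a combination of the two forms
    fin_cases k <;> fin_cases m <;> simp only [Fin.zero_eta, Fin.mk_one, Fin.reduceFinMk, Fin.isValue] at hC ⊢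
    · exact ⟨0, 0, by linear_combination (X 0 : R) * hC⟩
    · exact ⟨C s * C (a j 2 : ℂ), -(C s * C (a i 2 : ℂ)), by
        rw [c0] at hC; rw [c1]; linear_combination (X 1 : R) * hC⟩
    · exact ⟨-(C s * C (a j 1 : ℂ)), C s * C (a i 1 : ℂ), by
        rw [c0] at hC; rw [c2]; linear_combination (X 2 : R) * hC⟩
    · exact ⟨-(C s * C (a j 2 : ℂ)), C s * C (a i 2 : ℂ), by
        rw [c1] at hC; rw [c0]; linear_combination (X 0 : R) * hC⟩
    · exact ⟨0, 0, by linear_combination (X 1 : R) * hC⟩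
    · exact ⟨C s * C (a j 0 : ℂ), -(C s * C (a i 0 : ℂ)), by
        rw [c1] at hC; rw [c2]; linear_combination (X 2 : R) * hC⟩
    · exact ⟨C s * C (a j 1 : ℂ), -(C s * C (a i 1 : ℂ)), by
        rw [c2] at hC; rw [c0]; linear_combination (X 0 : R) * hC⟩
    · exact ⟨-(C s * C (a j 0 : ℂ)), C s * C (a i 0 : ℂ), by
        rw [c2] at hC; rw [c1]; linear_combination (X 1 : R) * hC⟩
    · exact ⟨0, 0, by linear_combination (X 2 : R) * hC⟩
  rw [h0, sub_zero, Ideal.mem_span_pair] at hmem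
  obtain ⟨u, v, e⟩ := hmem
  exact ⟨u, v, by rw [← e]; ring⟩

lemma transfer {i j k : Fin 12} {l : List (Fin 12)} {h h' u : R}
    (e : h = lin k * h' + pr l * u) (hV : V i j h) (h1 : D i j k ≠ 0)
    (h2 : ∃ m ∈ l, D i j m = 0) : V i j h' := by
  intro t ht
  have := hV t ht
  rw [e, map_add, map_mul, map_mul, eval_pr_zero h2, zero_mul, add_zero, eval_lin] at this
  have h1' : (D i j k : ℂ) ≠ 0 := by exact_mod_cast h1
  exact (mul_eq_zero.1 this).resolve_left (mul_ne_zero ht h1')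

lemma chain (i : Fin 12) : ∀ (bs : List (Fin 12)) (h : R),
    bs.Pairwise (fun b b' => D i b' b ≠ 0) → (∀ b ∈ bs, ∃ k, cr i b k ≠ 0) →
    (∀ b ∈ bs, V i b h) → ∃ u v : R, h = lin i * u + pr bs * v
  | [], h, _, _, _ => ⟨0, h, by simp [pr]⟩
  | b :: bs, h, hp, hne, hV => by
    obtain ⟨u, v, e⟩ := base (hne b (by simp)) (hV b (by simp))
    rw [List.pairwise_cons] at hp
    have e' : h = lin b * v + pr [i] * u := by rw [e]; simp [pr]; ring
    obtain ⟨u', v', e2⟩ := chain i bs v hp.2 (fun c hc => hne c (by simp [hc]))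
      (fun c hc => transfer e' (hV c (by simp [hc])) (hp.1 c hc) ⟨i, by simp, D_left i c⟩)
    refine ⟨u + lin b * u', v', ?_⟩
    rw [e, e2]
    simp only [pr, List.map_cons, List.prod_cons]
    ring

def L0 : List (Fin 12) := [0, 1, 2, 3, 4, 5, 6]
def L1 : List (Fin 12) := [1, 4, 5, 6, 10, 11]
def L2 : List (Fin 12) := [0, 4, 5, 6]

def P1 (i j : Fin 12) : Prop := i ≠ j ∧ D i j 7 ≠ 0 ∧ ∃ m ∈ L0, D i j m = 0
def P2 (i j : Fin 12) : Prop := P1 i j ∧ D i j 8 ≠ 0 ∧ ∃ m ∈ L1, D i j m = 0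
def P3 (i j : Fin 12) : Prop := P2 i j ∧ D i j 9 ≠ 0 ∧ ∃ m ∈ L1, D i j m = 0
def P4 (i j : Fin 12) : Prop := P3 i j ∧ D i j 10 ≠ 0 ∧ ∃ m ∈ L2, D i j m = 0
def P5 (i j : Fin 12) : Prop := P4 i j ∧ D i j 11 ≠ 0 ∧ ∃ m ∈ L2, D i j m = 0

instance (i j : Fin 12) : Decidable (P1 i j) := by unfold P1; infer_instance
instance (i j : Fin 12) : Decidable (P2 i j) := by unfold P2; infer_instance
instance (i j : Fin 12) : Decidable (P3 i j) := by unfold P3; infer_instance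
instance (i j : Fin 12) : Decidable (P4 i j) := by unfold P4; infer_instance
instance (i j : Fin 12) : Decidable (P5 i j) := by unfold P5; infer_instance

section gens
variable {K : Type*} [CommRing K]
def pA (x _y z : K) : K := x ^ 2 - z ^ 2
def pB (_x y z : K) : K := y ^ 2 - z ^ 2
def pr3 (x y _z : K) : K := (x - 2 * y) * (x + 2 * y) * (2 * x - y)
def pg (x y z : K) : K := z * pA x y z * pB x y z
def pG (i : Fin 5) (x y z : K) : K :=
  ![pg x y z * x, pg x y z * y, x * y * (x - y) * (x + y) * pr3 x y z,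
    z * y * pr3 x y z * pB x y z, z * x * pr3 x y z * pA x y z] i
def pc (x y z : K) : K :=
  pr3 x y z * ((pA x y z - pB x y z) ^ 2 + z ^ 2 * (pA x y z + pB x y z))
    + 3 * z * pg x y z * (2 * x + 4 * y)
def pF (x y z : K) : K := pg x y z * pr3 x y z * pc x y z
end gens

lemma lin0 : lin 0 = X 0 := by simp [lin, a]
lemma lin1 : lin 1 = X 1 := by simp [lin, a]
lemma lin2 : lin 2 = X 0 - X 1 := by simp [lin, a]; ring
lemma lin3 : lin 3 = X 0 + X 1 := by simp [lin, a]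
lemma lin4 : lin 4 = X 0 - 2 * X 1 := by simp [lin, a, map_ofNat]; ring
lemma lin5 : lin 5 = X 0 + 2 * X 1 := by simp [lin, a, map_ofNat]
lemma lin6 : lin 6 = 2 * X 0 - X 1 := by simp [lin, a, map_ofNat]; ring
lemma lin7 : lin 7 = X 2 := by simp [lin, a]
lemma lin8 : lin 8 = X 0 - X 2 := by simp [lin, a]; ring
lemma lin9 : lin 9 = X 0 + X 2 := by simp [lin, a]
lemma lin10 : lin 10 = X 1 - X 2 := by simp [lin, a]; ring
lemma lin11 : lin 11 = X 1 + X 2 := by simp [lin, a]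

theorem gen (h : R) (hV : ∀ i j, i ≠ j → V i j h) :
    ∃ u : Fin 5 → R, h = ∑ i, u i * pG i (X 0) (X 1) (X 2) := by
  obtain ⟨h1, u0, e0⟩ := chain 7 L0 h (by decide) (by decide)
    (fun b hb => hV 7 b (by revert b; decide))
  have t1 : ∀ i j, P1 i j → V i j h1 := fun i j p => transfer e0 (hV i j p.1) p.2.1 p.2.2
  obtain ⟨h2, u1, e1⟩ := chain 8 L1 h1 (by decide) (by decide)
    (fun b hb => t1 8 b (by revert b; decide))
  have t2 : ∀ i j, P2 i j → V i j h2 := fun i j p => transfer e1 (t1 i j p.1) p.2.1 p.2.2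
  obtain ⟨h3, u2, e2⟩ := chain 9 L1 h2 (by decide) (by decide)
    (fun b hb => t2 9 b (by revert b; decide))
  have t3 : ∀ i j, P3 i j → V i j h3 := fun i j p => transfer e2 (t2 i j p.1) p.2.1 p.2.2
  obtain ⟨h4, u3, e3⟩ := chain 10 L2 h3 (by decide) (by decide)
    (fun b hb => t3 10 b (by revert b; decide))
  have t4 : ∀ i j, P4 i j → V i j h4 := fun i j p => transfer e3 (t3 i j p.1) p.2.1 p.2.2
  obtain ⟨h5, u4, e4⟩ := chain 11 L2 h4 (by decide) (by decide)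
    (fun b hb => t4 11 b (by revert b; decide))
  have t5 : ∀ i j, P5 i j → V i j h5 := fun i j p => transfer e4 (t4 i j p.1) p.2.1 p.2.2
  obtain ⟨v1, v2, e5⟩ := base (i := 0) (j := 1) (by decide) (t5 0 1 (by decide))
  refine ⟨![v1, v2, u0, u1 + lin 8 * u2, u3 + lin 10 * u4], ?_⟩
  rw [e0, e1, e2, e3, e4, e5]
  simp only [Fin.sum_univ_five, pG, pg, pA, pB, pr3, pr, L0, L1, L2, List.map_cons, List.map_nil,
    List.prod_cons, List.prod_nil, lin0, lin1, lin2, lin3, lin4, lin5, lin6, lin7, lin8, lin9,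
    lin10, lin11]
  simp only [Matrix.cons_val_zero, Matrix.cons_val_one, Matrix.cons_val]
  ring

end Pool.Agent.Lib.MP_8050b7_ag
end

-- part Pool.Agent.Lib.MP_8050b7_ag.Mem
section

/-! The form `pF` vanishes to order three at every singular point. -/

namespace Pool.Agent.Lib.MP_8050b7_ag
open MvPolynomial

lemma cr_ne : ∀ i j : Fin 12, i ≠ j → ∃ k, cr i j k ≠ 0 := by decide

lemma lin_mem {I : Ideal R} {i j k : Fin 12} (hij : i ≠ j) (hi : lin i ∈ I) (hj : lin j ∈ I)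
    (hk : D i j k = 0) : lin k ∈ I := by
  obtain ⟨u, v, e⟩ := base (h := lin k) (cr_ne i j hij)
    (fun t _ => by rw [eval_lin, hk]; simp)
  rw [e]
  exact I.add_mem (I.mul_mem_right _ hi) (I.mul_mem_right _ hj)

lemma types : ∀ i j : Fin 12, i ≠ j →
    (D i j 4 = 0 ∧ D i j 5 = 0 ∧ D i j 6 = 0) ∨
    ((D i j 4 = 0 ∨ D i j 5 = 0 ∨ D i j 6 = 0) ∧
      (D i j 7 = 0 ∨ (D i j 8 = 0 ∨ D i j 9 = 0) ∨ (D i j 10 = 0 ∨ D i j 11 = 0))) ∨
    ((D i j 8 = 0 ∨ D i j 9 = 0) ∧ (D i j 10 = 0 ∨ D i j 11 = 0)) ∨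
    (D i j 7 = 0 ∧ D i j 8 = 0 ∧ D i j 9 = 0) ∨
    (D i j 7 = 0 ∧ D i j 10 = 0 ∧ D i j 11 = 0) ∨
    (D i j 7 = 0 ∧ (D i j 2 = 0 ∨ D i j 3 = 0)) ∨
    (D i j 0 = 0 ∧ (D i j 10 = 0 ∨ D i j 11 = 0)) ∨
    (D i j 1 = 0 ∧ (D i j 8 = 0 ∨ D i j 9 = 0)) := by decide

section
variable {K : Type*} [CommRing K] {I : Ideal K}

lemma m2 {p q : K} (hp : p ∈ I) (hq : q ∈ I) : p * q ∈ I ^ 2 := by
  rw [pow_two]; exact Ideal.mul_mem_mul hp hq

lemma m12 {p q : K} (hp : p ∈ I) (hq : q ∈ I ^ 2) : p * q ∈ I ^ 3 := by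
  rw [pow_succ']; exact Ideal.mul_mem_mul hp hq

lemma m3 {p q s : K} (hp : p ∈ I) (hq : q ∈ I) (hs : s ∈ I) : p * q * s ∈ I ^ 3 := by
  rw [mul_assoc]; exact m12 hp (m2 hq hs)

variable {x y z : K}

lemma T1 (h4 : x - 2 * y ∈ I) (h5 : x + 2 * y ∈ I) (h6 : 2 * x - y ∈ I) : pF x y z ∈ I ^ 3 :=
  Ideal.mul_mem_right _ _ (Ideal.mul_mem_left _ _ (m3 h4 h5 h6))

lemma T2 (hr : pr3 x y z ∈ I) (hg : pg x y z ∈ I) : pF x y z ∈ I ^ 3 :=
  m3 hg hr (I.add_mem (I.mul_mem_right _ hr) (I.mul_mem_right _ (I.mul_mem_left _ hg)))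

lemma T3 (hA : pA x y z ∈ I) (hB : pB x y z ∈ I) : pF x y z ∈ I ^ 3 := by
  have hc : pc x y z ∈ I := by
    refine I.add_mem (I.mul_mem_left _ (I.add_mem ?_ (I.mul_mem_left _ (I.add_mem hA hB))))
      (I.mul_mem_right _ (I.mul_mem_left _ (I.mul_mem_left _ hB)))
    rw [pow_two]; exact I.mul_mem_left _ (I.sub_mem hA hB)
  have := Ideal.mul_mem_left _ (z * pr3 x y z) (m3 hA hB hc)
  convert this using 1
  simp only [pF, pg]; ring

lemma T4 (h7 : z ∈ I) (h8 : x - z ∈ I) (h9 : x + z ∈ I) : pF x y z ∈ I ^ 3 := by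
  have := Ideal.mul_mem_left _ (pB x y z * pr3 x y z * pc x y z) (m3 h7 h8 h9)
  convert this using 1
  simp only [pF, pg, pA]; ring

lemma T4' (h7 : z ∈ I) (h8 : y - z ∈ I) (h9 : y + z ∈ I) : pF x y z ∈ I ^ 3 := by
  have := Ideal.mul_mem_left _ (pA x y z * pr3 x y z * pc x y z) (m3 h7 h8 h9)
  convert this using 1
  simp only [pF, pg, pB]; ring

lemma T5 (h7 : z ∈ I) (h : pA x y z - pB x y z ∈ I) : pF x y z ∈ I ^ 3 := by
  have hg : pg x y z ∈ I := I.mul_mem_right _ (I.mul_mem_right _ h7)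
  have hc : pc x y z ∈ I ^ 2 := by
    have := (I ^ 2).add_mem ((I ^ 2).mul_mem_left (pr3 x y z) ((I ^ 2).add_mem (m2 h h)
      ((I ^ 2).mul_mem_right (pA x y z + pB x y z) (m2 h7 h7))))
      ((I ^ 2).mul_mem_left (3 * (2 * x + 4 * y)) (m2 h7 hg))
    convert this using 1
    simp only [pc]; ring
  exact m12 (I.mul_mem_right _ hg) hc

lemma T6 (h0 : x ∈ I) (hB : pB x y z ∈ I) : pF x y z ∈ I ^ 3 := by
  have hg : pg x y z ∈ I := I.mul_mem_left _ hB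
  have hc : pc x y z ∈ I ^ 2 := by
    have := (I ^ 2).add_mem ((I ^ 2).add_mem
      ((I ^ 2).mul_mem_left (-10 * y * z ^ 4 + 15 * y ^ 3 * z ^ 2 - 9 * y ^ 5 - 10 * x * z ^ 4
        + 18 * x * y ^ 4 - x ^ 2 * y * z ^ 2 + 6 * x ^ 2 * y ^ 3 + 2 * x ^ 3 * z ^ 2
        - 12 * x ^ 3 * y ^ 2 - x ^ 4 * y + 2 * x ^ 5) (m2 h0 h0))
      ((I ^ 2).mul_mem_left (-6 * z ^ 4 - 16 * y ^ 2 * z ^ 2 - 8 * y ^ 4) (m2 h0 hB)))
      ((I ^ 2).mul_mem_left (12 * y * z ^ 2 + 4 * y ^ 3) (m2 hB hB))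
    convert this using 1
    simp only [pc, pg, pA, pB, pr3]; ring
  exact m12 (I.mul_mem_right _ hg) hc

lemma T6' (h0 : y ∈ I) (hA : pA x y z ∈ I) : pF x y z ∈ I ^ 3 := by
  have hg : pg x y z ∈ I := I.mul_mem_right _ (I.mul_mem_left _ hA)
  have hc : pc x y z ∈ I ^ 2 := by
    have := (I ^ 2).add_mem ((I ^ 2).add_mem
      ((I ^ 2).mul_mem_left (-20 * y * z ^ 4 + 4 * y ^ 3 * z ^ 2 + 4 * y ^ 5 + 10 * x * z ^ 4
        - 8 * x * y ^ 2 * z ^ 2 - 8 * x * y ^ 4 + 15 * x ^ 2 * y * z ^ 2 - 9 * x ^ 2 * y ^ 3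
        + 18 * x ^ 3 * y ^ 2 + 6 * x ^ 4 * y - 12 * x ^ 5) (m2 h0 h0))
      ((I ^ 2).mul_mem_left (-12 * z ^ 4 - 2 * x ^ 2 * z ^ 2 - x ^ 4) (m2 h0 hA)))
      ((I ^ 2).mul_mem_left (6 * x * z ^ 2 + 2 * x ^ 3) (m2 hA hA))
    convert this using 1
    simp only [pc, pg, pA, pB, pr3]; ring
  exact m12 (I.mul_mem_right _ hg) hc

lemma sq_mem {u v : K} (h : u - v ∈ I ∨ u + v ∈ I) : u ^ 2 - v ^ 2 ∈ I := by
  have e : u ^ 2 - v ^ 2 = (u - v) * (u + v) := by ring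
  rw [e]
  exact h.elim (I.mul_mem_right _) (I.mul_mem_left _)
end

theorem pF_mem {I : Ideal R} {i j : Fin 12} (hij : i ≠ j) (hi : lin i ∈ I) (hj : lin j ∈ I) :
    pF (X 0) (X 1) (X 2) ∈ I ^ 3 := by
  have L := fun k (hk : D i j k = 0) => lin_mem hij hi hj hk
  have hA : D i j 8 = 0 ∨ D i j 9 = 0 → pA (X 0) (X 1) (X 2) ∈ I := fun h =>
    sq_mem (h.imp (fun h => lin8 ▸ L 8 h) (fun h => lin9 ▸ L 9 h))
  have hB : D i j 10 = 0 ∨ D i j 11 = 0 → pB (X 0) (X 1) (X 2) ∈ I := fun h =>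
    sq_mem (h.imp (fun h => lin10 ▸ L 10 h) (fun h => lin11 ▸ L 11 h))
  rcases types i j hij with h | h | h | h | h | h | h | h
  · exact T1 (lin4 ▸ L 4 h.1) (lin5 ▸ L 5 h.2.1) (lin6 ▸ L 6 h.2.2)
  · refine T2 ?_ ?_
    · rcases h.1 with h | h | h
      · exact I.mul_mem_right _ (I.mul_mem_right _ (lin4 ▸ L 4 h))
      · exact I.mul_mem_right _ (I.mul_mem_left _ (lin5 ▸ L 5 h))
      · exact I.mul_mem_left _ (lin6 ▸ L 6 h)
    · rcases h.2 with h | h | h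
      · exact I.mul_mem_right _ (I.mul_mem_right _ (lin7 ▸ L 7 h))
      · exact I.mul_mem_right _ (I.mul_mem_left _ (hA h))
      · exact I.mul_mem_left _ (hB h)
  · exact T3 (hA h.1) (hB h.2)
  · exact T4 (lin7 ▸ L 7 h.1) (lin8 ▸ L 8 h.2.1) (lin9 ▸ L 9 h.2.2)
  · exact T4' (lin7 ▸ L 7 h.1) (lin10 ▸ L 10 h.2.1) (lin11 ▸ L 11 h.2.2)
  · refine T5 (lin7 ▸ L 7 h.1) ?_
    have : (X 0 : R) ^ 2 - X 1 ^ 2 ∈ I :=
      sq_mem (h.2.imp (fun h => lin2 ▸ L 2 h) (fun h => lin3 ▸ L 3 h))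
    convert this using 1
    simp only [pA, pB]; ring
  · exact T6 (lin0 ▸ L 0 h.1) (hB h.2)
  · exact T6' (lin1 ▸ L 1 h.1) (hA h.2)

end Pool.Agent.Lib.MP_8050b7_ag
end
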