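import Pool.Agent.Lib.MP_8050b7_ag.Defs
import Pool.Agent.Lib.MP_8050b7_ag.Mem
import Pool.Agent.Lib.MP_8050b7_ag.Func

/-! The twelve-line arrangement is supersolvable. -/

namespace Pool.Agent.Lib.MP_8050b7_ag
open MvPolynomial Module

abbrev W := Fin 3 → ℂ

noncomputable def form (i : Fin 12) : W →ₗ[ℂ] ℂ :=
  (a i 0 : ℂ) • LinearMap.proj 0 + (a i 1 : ℂ) • LinearMap.proj 1 + (a i 2 : ℂ) • LinearMap.proj 2

noncomputable def H (i : Fin 12) : Submodule ℂ W := LinearMap.ker (form i)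

def Arr : Set (Submodule ℂ W) := Set.range H

lemma form_apply (i : Fin 12) (w : W) : form i w = eval w (lin i) := by
  simp [form, lin]

lemma mem_H {i : Fin 12} {w : W} : w ∈ H i ↔ eval w (lin i) = 0 := by
  rw [H, LinearMap.mem_ker, form_apply]

lemma pt_mem {i j k : Fin 12} (t : ℂ) (h : D i j k = 0) : pt i j t ∈ H k := by
  rw [mem_H, eval_lin, h]; simp

lemma pt_not_mem {i j k : Fin 12} (h : D i j k ≠ 0) : pt i j 1 ∉ H k := by
  rw [mem_H, eval_lin, one_mul]; exact_mod_cast h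

lemma form_ne (i : Fin 12) : form i ≠ 0 := by
  have : ∀ i : Fin 12, ∃ j k, D j k i ≠ 0 := by decide
  obtain ⟨j, k, h⟩ := this i
  intro h0
  apply pt_not_mem h
  rw [H, h0]; simp

noncomputable def fr (X : Submodule ℂ W) : ℕ := finrank ℂ X

lemma finrank_W : finrank ℂ W = 3 := by simp

lemma fr_top : fr ⊤ = 3 := by rw [fr, finrank_top, finrank_W]
lemma fr_zero {X : Submodule ℂ W} (h : fr X = 0) : X = ⊥ := Submodule.finrank_eq_zero.1 h
lemma fr_lt {X Y : Submodule ℂ W} (h : X < Y) : fr X < fr Y := Submodule.finrank_lt_finrank_of_lt h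
lemma fr_mono {X Y : Submodule ℂ W} (h : X ≤ Y) : fr X ≤ fr Y := Submodule.finrank_mono h
lemma fr_eq {X Y : Submodule ℂ W} (h : X ≤ Y) (e : fr X = fr Y) : X = Y :=
  Submodule.eq_of_le_of_finrank_eq h e
lemma fr_sup (X Y : Submodule ℂ W) : fr (X ⊔ Y) + fr (X ⊓ Y) = fr X + fr Y :=
  Submodule.finrank_sup_add_finrank_inf_eq X Y
lemma rk_eq (X : Submodule ℂ W) : rk X = 3 - fr X := rfl

lemma finrank_H (i : Fin 12) : fr (H i) = 2 := by
  have : fr (H i) + 1 = finrank ℂ W := Module.Dual.finrank_ker_add_one_of_ne_zero (form_ne i)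
  rw [finrank_W] at this
  omega

lemma H_ne {i j : Fin 12} (hij : i ≠ j) : H i ≠ H j := by
  have : ∀ i j : Fin 12, i ≠ j → ∃ k, D i k j ≠ 0 := by decide
  obtain ⟨k, h⟩ := this i j hij
  intro e
  exact pt_not_mem h (e ▸ pt_mem 1 (D_left i k))

lemma le3 (X : Submodule ℂ W) : fr X ≤ 3 := (fr_mono le_top).trans_eq fr_top

lemma eq_top3 {X : Submodule ℂ W} (h : fr X = 3) : X = ⊤ :=
  fr_eq le_top (h.trans fr_top.symm)

lemma sup_eq_top {X Y : Submodule ℂ W} (hX : fr X = 2) (h : ¬ Y ≤ X) : X ⊔ Y = ⊤ := by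
  apply eq_top3
  have h1 : X < X ⊔ Y := left_lt_sup.2 h
  have := fr_lt h1
  have := le3 (X ⊔ Y)
  omega

lemma finrank_inf {i j : Fin 12} (hij : i ≠ j) : fr (H i ⊓ H j) = 1 := by
  have h1 : ¬ H j ≤ H i := fun h =>
    H_ne hij (fr_eq h (by rw [finrank_H, finrank_H])).symm
  have := fr_sup (H i) (H j)
  rw [sup_eq_top (finrank_H i) h1, fr_top, finrank_H, finrank_H] at this
  omega

lemma top_mem : ⊤ ∈ flats Arr := ⟨∅, Set.empty_subset _, by simp⟩
lemma H_mem (i : Fin 12) : H i ∈ flats Arr := ⟨{H i}, by simp [Arr], by simp⟩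
lemma inf_mem {X Y : Submodule ℂ W} (hX : X ∈ flats Arr) (hY : Y ∈ flats Arr) :
    X ⊓ Y ∈ flats Arr := by
  obtain ⟨B, hB, rfl⟩ := hX
  obtain ⟨B', hB', rfl⟩ := hY
  exact ⟨B ∪ B', Set.union_subset hB hB', sInf_union.symm⟩

lemma bot_mem : ⊥ ∈ flats Arr := by
  have : H 0 ⊓ H 1 ⊓ H 7 = ⊥ := by
    rw [eq_bot_iff]
    rintro w ⟨⟨h0, h1⟩, h2⟩
    have h0 := mem_H.1 h0
    have h1 := mem_H.1 h1
    have h2 := mem_H.1 h2
    rw [lin0, eval_X] at h0
    rw [lin1, eval_X] at h1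
    rw [lin7, eval_X] at h2
    rw [Submodule.mem_bot]
    funext k
    fin_cases k
    exacts [h0, h1, h2]
  exact this ▸ inf_mem (inf_mem (H_mem 0) (H_mem 1)) (H_mem 7)

lemma exists_pair {X : Submodule ℂ W} (hX : X ∈ flats Arr) (h1 : fr X = 1) :
    ∃ i j, i ≠ j ∧ X ≤ H i ∧ X ≤ H j := by
  obtain ⟨B, hB, rfl⟩ := hX
  by_cases hs : B.Subsingleton
  · rcases hs.eq_empty_or_singleton with rfl | ⟨Y, rfl⟩
    · rw [sInf_empty, fr_top] at h1; omega
    · obtain ⟨i, rfl⟩ := hB (Set.mem_singleton Y)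
      rw [sInf_singleton, finrank_H] at h1; omega
  · obtain ⟨Y, hY, Z, hZ, hne⟩ := Set.not_subsingleton_iff.1 hs
    obtain ⟨i, rfl⟩ := hB hY
    obtain ⟨j, rfl⟩ := hB hZ
    exact ⟨i, j, fun e => hne (e ▸ rfl), sInf_le hY, sInf_le hZ⟩

lemma inf_le_H {i j k : Fin 12} (hij : i ≠ j) (h : D i j k = 0) : H i ⊓ H j ≤ H k := by
  rintro w ⟨hi, hj⟩
  have := lin_mem (I := RingHom.ker (eval w)) hij (mem_H.1 hi) (mem_H.1 hj) h
  exact mem_H.2 this

lemma modular_of_sup {X : Submodule ℂ W} (hX : X ∈ flats Arr)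
    (h : ∀ Y ∈ flats Arr, X ⊔ Y ∈ flats Arr) : IsModular Arr X := by
  refine ⟨hX, fun Y hY => ?_⟩
  have e : latMeet Arr X Y = X ⊔ Y := by
    apply le_antisymm
    · exact sInf_le ⟨h Y hY, le_sup_left, le_sup_right⟩
    · exact le_sInf fun Z hZ => sup_le hZ.2.1 hZ.2.2
  rw [e]
  have := fr_sup X Y
  have := le3 X
  have := le3 Y
  have := le3 (X ⊔ Y)
  have := le3 (X ⊓ Y)
  simp only [rk_eq]
  omega

lemma modular_H : IsModular Arr (H 0) := by
  refine modular_of_sup (H_mem 0) fun Y _ => ?_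
  by_cases h : Y ≤ H 0
  · rw [sup_eq_left.2 h]; exact H_mem 0
  · rw [sup_eq_top (finrank_H 0) h]; exact top_mem

lemma modular_p : IsModular Arr (H 0 ⊓ H 1) := by
  have hp : fr (H 0 ⊓ H 1) = 1 := finrank_inf (by decide)
  refine modular_of_sup (inf_mem (H_mem 0) (H_mem 1)) fun Y hY => ?_
  by_cases h : H 0 ⊓ H 1 ≤ Y
  · rw [sup_eq_right.2 h]; exact hY
  have hlt : Y < H 0 ⊓ H 1 ⊔ Y := right_lt_sup.2 h
  have h1 := fr_lt hlt
  have h3 := le3 (H 0 ⊓ H 1 ⊔ Y)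
  obtain h0 | h0 | h0 : fr Y = 0 ∨ fr Y = 1 ∨ fr Y = 2 := by omega
  · rw [fr_zero h0, sup_bot_eq]; exact inf_mem (H_mem 0) (H_mem 1)
  · obtain ⟨i, j, hij, hi, hj⟩ := exists_pair hY h0
    have : ∀ i j : Fin 12, i ≠ j → ∃ k, D i j k = 0 ∧ D 0 1 k = 0 := by decide
    obtain ⟨k, hk, hk'⟩ := this i j hij
    have hle : H 0 ⊓ H 1 ⊔ Y ≤ H k :=
      sup_le (inf_le_H (by decide) hk') ((le_inf hi hj).trans (inf_le_H hij hk))
    have h4 := fr_mono hle
    rw [fr_eq hle (by rw [finrank_H] at h4 ⊢; omega)]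
    exact H_mem k
  · rw [eq_top3 (X := H 0 ⊓ H 1 ⊔ Y) (by omega)]; exact top_mem

theorem arr_isArrangement : IsArrangement Arr :=
  ⟨Set.finite_range _, by rintro _ ⟨i, rfl⟩; exact ⟨form i, form_ne i, rfl⟩⟩

theorem arr_supersolvable : IsSupersolvable Arr := by
  have hp : fr (H 0 ⊓ H 1) = 1 := finrank_inf (by decide)
  refine ⟨{⊤, H 0, H 0 ⊓ H 1, ⊥}, ?_, ?_, ?_⟩
  · rintro X (rfl | rfl | rfl | rfl)
    · exact modular_of_sup top_mem fun Y _ => by rw [top_sup_eq]; exact top_mem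
    · exact modular_H
    · exact modular_p
    · exact modular_of_sup bot_mem fun Y hY => by rw [bot_sup_eq]; exact hY
  · rintro X (rfl | rfl | rfl | rfl) Y (rfl | rfl | rfl | rfl) <;> simp
  · intro Z _ hZ
    have h3 := le3 Z
    have key : ∀ X : Submodule ℂ W, (X ≤ Z ∨ Z ≤ X) → fr Z = fr X → Z = X :=
      fun X h e => h.elim (fun h => (fr_eq h e.symm).symm)
        (fun h => fr_eq h e)
    obtain h0 | h0 | h0 | h0 :
      fr Z = 0 ∨ fr Z = 1 ∨ fr Z = 2 ∨ fr Z = 3 := by omega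
    · simp [fr_zero h0]
    · simp [key (H 0 ⊓ H 1) (hZ _ (by simp)) (h0.trans hp.symm)]
    · simp [key (H 0) (hZ _ (by simp)) (h0.trans (finrank_H 0).symm)]
    · simp [eq_top3 h0]

theorem F_mem_symb : pF (X 0) (X 1) (X 2) ∈ symbPower Arr 3 := by
  simp only [symbPower, Submodule.mem_iInf]
  rintro Y ⟨hY, h2⟩
  have h1 : fr Y = 1 := by rw [rk_eq] at h2; omega
  obtain ⟨i, j, hij, hi, hj⟩ := exists_pair hY h1
  exact pF_mem hij (fun w hw => mem_H.1 (hi hw)) (fun w hw => mem_H.1 (hj hw))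

lemma V_of_mem {h : R} (hh : h ∈ singIdeal Arr) (i j : Fin 12) (hij : i ≠ j) : V i j h := by
  simp only [singIdeal, Submodule.mem_iInf] at hh
  have := hh (H i ⊓ H j) ⟨inf_mem (H_mem i) (H_mem j), by rw [rk_eq, finrank_inf hij]⟩
  intro t _
  exact this (pt i j t) ⟨pt_mem t (D_left i j), pt_mem t (D_right i j)⟩

theorem F_not_mem : pF (X 0) (X 1) (X 2) ∉ singIdeal Arr ^ 2 := by
  intro h
  apply lam_F
  rw [pow_two] at h
  refine Submodule.mul_induction_on h (fun p hp q hq => lam_mul (V_of_mem hp) (V_of_mem hq)) ?_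
  intro p q hp hq
  rw [map_add, hp, hq, add_zero]

end Pool.Agent.Lib.MP_8050b7_ag
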